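import Pool.Agent.H172.EF.LPs

/-!
Rational polytopes given by inequalities: vertices, and estimates with an error term.
-/

set_option autoImplicit false
set_option linter.overlappingInstances false
set_option linter.unusedSectionVars false
set_option maxHeartbeats 400000

open Pool.Agent.TH152.AC Pool.Agent.Y169.TH Pool.Agent.H172.EF

namespace Pool.Agent.H172.EG

section

variable {N : ℕ} {ι : Type} [Fintype ι] {l : ι → Fin N → ℚ} {b : ι → ℚ}

/-- the polyhedron -/
def Pg (l : ι → Fin N → ℚ) (b : ι → ℚ) : Set (Fin N → ℚ) := {y | ∀ s, b s ≤ dotL (l s) y}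

/-- **The lower bound with an error term.** -/
theorem lpg_lower (hrec : ∀ z : Fin N → ℚ, (∀ s, 0 ≤ dotL (l s) z) → z = 0)
    {u : Fin N → ℚ} {ρ : ℚ} (hu : ∀ y ∈ Pg l b, ρ ≤ dotL u y) :
    ∃ A0 : ℚ, 0 ≤ A0 ∧ ∀ (y : Fin N → ℚ) (m c : ℚ), 0 ≤ m → 0 ≤ c →
      (∀ s, b s * m - c ≤ dotL (l s) y) → ρ * m - A0 * c ≤ dotL u y := by
  classical
  let L : ι ⊕ Unit → ((Fin N → ℚ) × ℚ) →ₗ[ℚ] ℚ := Sum.elim
    (fun s => b s • LinearMap.snd ℚ _ _ - (dotL (l s)).comp (LinearMap.fst ℚ _ _))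
    (fun _ => - LinearMap.snd ℚ _ _)
  obtain ⟨w, hw, hf⟩ := farkas_fin L
    (ρ • LinearMap.snd ℚ (Fin N → ℚ) ℚ - (dotL u).comp (LinearMap.fst ℚ _ _)) (by
    rintro ⟨y, t⟩ hyt
    have h1 : ∀ s, b s * t - dotL (l s) y ≤ 0 := fun s => hyt (Sum.inl s)
    have h4 : - t ≤ 0 := hyt (Sum.inr ())
    change ρ * t - dotL u y ≤ 0
    rcases (show 0 ≤ t by linarith).lt_or_eq with ht | ht
    · have h6 := hu (t⁻¹ • y) (fun s => by
        rw [map_smul, smul_eq_mul, inv_mul_eq_div, le_div_iff₀ ht]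
        linarith [h1 s])
      rw [map_smul, smul_eq_mul, inv_mul_eq_div, le_div_iff₀ ht] at h6
      linarith
    · have h8 : y = 0 := hrec y fun s => by
        have := h1 s
        rw [← ht, mul_zero] at this
        linarith
      rw [h8, map_zero, ← ht]
      simp)
  refine ⟨∑ s, w (Sum.inl s), Finset.sum_nonneg fun s _ => hw _, fun y m c hm hc h1 => ?_⟩
  have h3 : ρ * m - dotL u y = ∑ j, w j * L j (y, m) := hf (y, m)
  rw [Fintype.sum_sum_type] at h3
  rw [Fintype.sum_unique (fun a₂ : Unit => w (Sum.inr a₂) * (L (Sum.inr a₂)) (y, m))] at h3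
  have h3' : ρ * m - dotL u y = ∑ s, w (Sum.inl s) * (b s * m - dotL (l s) y) +
      w (Sum.inr ()) * (- m) := h3
  have h4 : ∑ s, w (Sum.inl s) * (b s * m - dotL (l s) y) ≤ (∑ s, w (Sum.inl s)) * c := by
    rw [Finset.sum_mul]
    exact Finset.sum_le_sum fun s _ => mul_le_mul_of_nonneg_left (by linarith [h1 s]) (hw _)
  have h6 : 0 ≤ w (Sum.inr ()) * m := mul_nonneg (hw _) hm
  linarith

/-- the span of the active constraints -/
def actg (l : ι → Fin N → ℚ) (b : ι → ℚ) (p : Fin N → ℚ) : Submodule ℚ (Fin N → ℚ) :=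
  Submodule.span ℚ {x | ∃ s, dotL (l s) p = b s ∧ x = l s}

/-- more active constraints -/
theorem improve_g (hrec : ∀ z : Fin N → ℚ, (∀ s, 0 ≤ dotL (l s) z) → z = 0) (u : Fin N → ℚ)
    {p : Fin N → ℚ} (hp : p ∈ Pg l b) (hne : actg l b p ≠ ⊤) :
    ∃ p' ∈ Pg l b, dotL u p' ≤ dotL u p ∧
      Module.finrank ℚ (actg l b p) < Module.finrank ℚ (actg l b p') := by
  classical
  obtain ⟨f, hf0, hf⟩ := Submodule.exists_le_ker_of_lt_top _ (lt_top_iff_ne_top.2 hne)
  obtain ⟨z0, hz0⟩ := exists_dot f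
  -- the sign
  obtain ⟨z, hzne, hzW, hzu⟩ : ∃ z : Fin N → ℚ, z ≠ 0 ∧ (∀ x ∈ actg l b p, dotL x z = 0) ∧
      dotL u z ≤ 0 := by
    have h0 : z0 ≠ 0 := by
      rintro rfl
      apply hf0
      ext x
      simp [hz0, dotL_apply]
    have h1 : ∀ x ∈ actg l b p, dotL x z0 = 0 := by
      intro x hx
      rw [dotL_comm, ← hz0]
      exact hf hx
    rcases le_total (dotL u z0) 0 with h | h
    · exact ⟨z0, h0, h1, h⟩
    · refine ⟨-z0, neg_ne_zero.2 h0, fun x hx => ?_, ?_⟩
      · rw [map_neg, h1 x hx, neg_zero]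
      · rw [map_neg]
        linarith
  obtain ⟨s0, hs0⟩ : ∃ s, dotL (l s) z < 0 := by
    by_contra hcon
    push Not at hcon
    exact hzne (hrec z hcon)
  obtain ⟨J, hJ⟩ : ∃ J : Finset ι, J = Finset.univ.filter fun s => dotL (l s) z < 0 := ⟨_, rfl⟩
  have hJne : J.Nonempty := by
    refine ⟨s0, ?_⟩
    rw [hJ, Finset.mem_filter]
    exact ⟨Finset.mem_univ _, hs0⟩
  obtain ⟨s1, hs1, hmin⟩ := Finset.exists_min_image J
    (fun s => (dotL (l s) p - b s) / (- dotL (l s) z)) hJne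
  obtain ⟨t, ht⟩ : ∃ t, t = (dotL (l s1) p - b s1) / (- dotL (l s1) z) := ⟨_, rfl⟩
  rw [← ht] at hmin
  have hs1z : dotL (l s1) z < 0 := by
    rw [hJ, Finset.mem_filter] at hs1
    exact hs1.2
  have ht0 : 0 ≤ t := by
    rw [ht]
    exact div_nonneg (by linarith [hp s1]) (by linarith)
  have hp1 : dotL (l s1) (p + t • z) = b s1 := by
    rw [map_add, map_smul, smul_eq_mul, ht]
    have h1 : dotL (l s1) z ≠ 0 := hs1z.ne
    have h2 : (dotL (l s1) p - b s1) / (- dotL (l s1) z) * dotL (l s1) z =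
        -(dotL (l s1) p - b s1) := by
      rw [div_mul_eq_mul_div, div_neg, mul_div_assoc, div_self h1, mul_one]
    rw [h2]
    ring
  refine ⟨p + t • z, fun s => ?_, ?_, ?_⟩
  · rw [map_add, map_smul, smul_eq_mul]
    by_cases hs : dotL (l s) z < 0
    · have h1 := hmin s (by rw [hJ, Finset.mem_filter]; exact ⟨Finset.mem_univ _, hs⟩)
      rw [le_div_iff₀ (by linarith)] at h1
      linarith
    · push Not at hs
      have h1 := mul_nonneg ht0 hs
      linarith [hp s]
  · rw [map_add, map_smul, smul_eq_mul]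
    have h1 := mul_nonneg ht0 (neg_nonneg.2 hzu)
    linarith
  · apply Submodule.finrank_lt_finrank_of_lt
    rw [lt_iff_le_and_ne]
    constructor
    · refine Submodule.span_mono ?_
      rintro x ⟨s, hs, rfl⟩
      refine ⟨s, ?_, rfl⟩
      rw [map_add, map_smul, hzW (l s) (Submodule.subset_span ⟨s, hs, rfl⟩), hs,
        smul_zero, add_zero]
    · intro heq
      have h1 : l s1 ∈ actg l b (p + t • z) := Submodule.subset_span ⟨s1, hp1, rfl⟩
      rw [← heq] at h1
      have h2 := hzW _ h1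
      linarith

/-- **The vertices.** -/
theorem exists_vertex_g (hrec : ∀ z : Fin N → ℚ, (∀ s, 0 ≤ dotL (l s) z) → z = 0)
    (u : Fin N → ℚ) {y : Fin N → ℚ} (hy : y ∈ Pg l b) :
    ∃ p ∈ Pg l b, dotL u p ≤ dotL u y ∧ actg l b p = ⊤ := by
  classical
  by_contra hcon
  push Not at hcon
  have key : ∀ r : ℕ, ∃ p ∈ Pg l b, dotL u p ≤ dotL u y ∧ r ≤ Module.finrank ℚ (actg l b p) := by
    intro r
    induction r with
    | zero => exact ⟨y, hy, le_rfl, Nat.zero_le _⟩
    | succ r ih =>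
      obtain ⟨p, hp, hpu, hr⟩ := ih
      obtain ⟨p', hp', hpu', hr'⟩ := improve_g hrec u hp (hcon p hp hpu)
      exact ⟨p', hp', hpu'.trans hpu, by omega⟩
  obtain ⟨p, -, -, hr⟩ := key (N + 1)
  have h1 := Submodule.finrank_le (actg l b p)
  rw [Module.finrank_fin_fun] at h1
  omega

end

section

variable {N : ℕ} {ι : Type} [Fintype ι]

/-- **The denominators of the vertices.** -/
theorem vertex_int_g {B : ℕ} {lz : ι → Fin N → ℤ} (hl : ∀ s k, |lz s k| ≤ B) {bz : ι → ℤ}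
    {p : Fin N → ℚ}
    (hact : actg (fun s k => (lz s k : ℚ)) (fun s => (bz s : ℚ)) p = ⊤) {D : ℕ}
    (hD : ∀ i, 1 ≤ i → i ≤ N.factorial * B ^ N → i ∣ D) :
    ∃ w : Fin N → ℤ, ∀ k, (w k : ℚ) = D * p k := by
  classical
  let A : Type := {s : ι // dotL (fun k => (lz s k : ℚ)) p = bz s}
  let g : A → Fin N → ℚ := fun o k => (lz o.1 k : ℚ)
  obtain ⟨b, -, -, hb2, hb3⟩ := exists_linearIndepOn_extension (K := ℚ) (v := g) (s := ∅)
    (t := Set.univ) (linearIndepOn_empty ℚ g) (Set.subset_univ _)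
  have htop : Submodule.span ℚ (g '' b) = ⊤ := by
    rw [eq_top_iff, ← hact]
    unfold actg
    rw [Submodule.span_le]
    rintro x ⟨s, hs, rfl⟩
    exact hb2 ⟨⟨s, hs⟩, Set.mem_univ _, rfl⟩
  have : Fintype b := Fintype.ofFinite b
  have hcard : Fintype.card b = N := by
    have h1 : LinearIndependent ℚ fun x : b => g x.1 := hb3
    have h2 := finrank_span_eq_card h1
    have h3 : Set.range (fun x : b => g x.1) = g '' b := by
      rw [Set.image_eq_range]
    rw [h3, htop, finrank_top, Module.finrank_fin_fun] at h2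
    exact h2.symm
  let e : Fin N ≃ b := (Fintype.equivFinOfCardEq hcard).symm
  let M : Matrix (Fin N) (Fin N) ℤ := Matrix.of fun i k => lz (e i).1.1 k
  let MQ : Matrix (Fin N) (Fin N) ℚ := M.map (Int.castRingHom ℚ)
  have hMQ : ∀ i k, MQ i k = g (e i).1 k := by
    intro i k
    simp [MQ, M, g]
  have hdet : MQ.det = (M.det : ℚ) := by
    have h1 := RingHom.map_det (Int.castRingHom ℚ) M
    rw [RingHom.mapMatrix_apply] at h1
    exact h1.symm
  have hdet0 : M.det ≠ 0 := by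
    intro h0
    have h1 : LinearIndependent ℚ MQ.row := by
      have h2 : LinearIndependent ℚ fun x : b => g x.1 := hb3
      have h3 := h2.comp e e.injective
      have h4 : MQ.row = (fun x : b => g x.1) ∘ e := by
        funext i k
        exact hMQ i k
      rw [h4]
      exact h3
    have h2 := (Matrix.isUnit_iff_isUnit_det _).1 (Matrix.linearIndependent_rows_iff_isUnit.1 h1)
    rw [hdet, h0] at h2
    simp at h2
  have hle : |M.det| ≤ (N.factorial * B ^ N : ℕ) := by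
    rw [Matrix.det_apply']
    refine (Finset.abs_sum_le_sum_abs _ _).trans ?_
    have h1 : ∀ σ : Equiv.Perm (Fin N), |(Equiv.Perm.sign σ : ℤ) * ∏ i, M (σ i) i| ≤
        (B : ℤ) ^ N := by
      intro σ
      rw [abs_mul]
      have h2 : |((Equiv.Perm.sign σ : ℤˣ) : ℤ)| = 1 := Int.isUnit_iff_abs_eq.1 (Units.isUnit _)
      rw [h2, one_mul, Finset.abs_prod]
      calc ∏ i, |M (σ i) i| ≤ ∏ _i : Fin N, (B : ℤ) :=
            Finset.prod_le_prod (fun i _ => abs_nonneg _) fun i _ => hl _ _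
        _ = _ := by rw [Finset.prod_const, Finset.card_univ, Fintype.card_fin]
    calc ∑ σ : Equiv.Perm (Fin N), |((Equiv.Perm.sign σ : ℤˣ) : ℤ) * ∏ i, M (σ i) i| ≤
        ∑ σ : Equiv.Perm (Fin N), (B : ℤ) ^ N := Finset.sum_le_sum fun σ _ => h1 σ
      _ = _ := by
        rw [Finset.sum_const, Finset.card_univ, Fintype.card_perm, Fintype.card_fin, nsmul_eq_mul]
        push_cast
        ring
  have hdvd : M.det.natAbs ∣ D := by
    refine hD _ (Int.natAbs_pos.2 hdet0) ?_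
    have h1 : ((M.det.natAbs : ℕ) : ℤ) ≤ (N.factorial * B ^ N : ℕ) := by
      rw [Int.natCast_natAbs]
      exact hle
    exact_mod_cast h1
  obtain ⟨q, hq⟩ : M.det ∣ (D : ℤ) := Int.natAbs_dvd.1 (by exact_mod_cast hdvd)
  -- Cramer's rule
  obtain ⟨r, hr⟩ : ∃ r : Fin N → ℤ, r = fun i => bz (e i).1.1 := ⟨_, rfl⟩
  have hMp : MQ.mulVec p = fun i => (r i : ℚ) := by
    funext i
    have h1 : MQ.mulVec p i = dotL (g (e i).1) p := by
      rw [Matrix.mulVec, dotProduct, dotL_apply]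
      exact Finset.sum_congr rfl fun k _ => by rw [hMQ]
    rw [h1, hr]
    exact (e i).1.2
  have hcr : ∀ k, (M.det : ℚ) * p k = ((M.adjugate.mulVec r k : ℤ) : ℚ) := by
    intro k
    have h1 : MQ.adjugate.mulVec (MQ.mulVec p) = MQ.det • p := by
      rw [Matrix.mulVec_mulVec, Matrix.adjugate_mul, Matrix.smul_mulVec, Matrix.one_mulVec]
    have h2 := congrFun h1 k
    rw [hMp, Pi.smul_apply, smul_eq_mul, hdet] at h2
    rw [← h2]
    have h3 : MQ.adjugate = M.adjugate.map (Int.castRingHom ℚ) := by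
      have h4 := RingHom.map_adjugate (Int.castRingHom ℚ) M
      rw [RingHom.mapMatrix_apply, RingHom.mapMatrix_apply] at h4
      exact h4.symm
    rw [h3, Matrix.mulVec, Matrix.mulVec, dotProduct, dotProduct]
    push_cast
    rfl
  refine ⟨fun k => q * M.adjugate.mulVec r k, fun k => ?_⟩
  push_cast
  rw [← hcr k]
  have h1 : (D : ℚ) = M.det * q := by exact_mod_cast hq
  rw [h1]
  ring

end

end Pool.Agent.H172.EG
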