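import Pool.Agent.H172.EG.SecN
import Pool.Agent.H172.EG.LPg
import Pool.Agent.H172.EF.Sct
import Pool.Agent.Y169.CH.Top

/-!
Normalised coordinates for the covers of products of projective spaces.
-/

set_option autoImplicit false
set_option linter.overlappingInstances false
set_option linter.unusedSectionVars false
set_option maxHeartbeats 1000000

open FF MvPolynomial Pool.Agent.W603.LV Pool.Agent.W602.GT Pool.Agent.W602.Cov
open Pool.Agent.TH756.PR Pool.Agent.TH122.AB Pool.Agent.TH756.PN Pool.Agent.Y169.CH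

namespace Pool.Agent.H172.EG

/-- the cover in normalised coordinates -/
structure Nc {r N' : ℕ} {n : Fin r → ℕ} (e : ((i : Fin r) × Fin (n i)) ≃ Fin (N' + 1))
    (dF : Fin r → ℕ) (K : Type) [Field K] [Algebra ℂ K] (R : ℕ) where
  /-- the coordinates -/
  x : ∀ i, Fin (n i + 1) → K
  hx0 : ∀ i, x i 0 = 1
  hbas : IsTranscendenceBasis ℂ (uu e x)
  /-- the forms -/
  F : ∀ i, MvPolynomial (Fin (n i + 1)) ℂ
  hn : ∀ i, 1 ≤ n i
  hdF : ∀ i, 1 ≤ dF i
  hh : ∀ i, (F i).IsHomogeneous (dF i)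
  hs : ∀ i, SmF (F i)
  hF3 : ∀ i, coeff (Finsupp.single (Fin.last (n i)) (dF i)) (F i) = 1
  /-- the cover -/
  C : Cvr (hblk e hn hdF hh hF3) K R
  hZ : C.Z = uu e x

variable {r R : ℕ} {n : Fin r → ℕ} {K : Type} [Field K] [Algebra ℂ K] {N' : ℕ}
  (e : ((i : Fin r) × Fin (n i)) ≃ Fin (N' + 1))

/-- **The cover.** -/
theorem exists_nc (hn : ∀ i, 1 ≤ n i) {x : ∀ i, Fin (n i + 1) → K} (hx0 : ∀ i, x i 0 ≠ 0)
    (hbas : IsTranscendenceBasis ℂ (uu e x)) {F : ∀ i, MvPolynomial (Fin (n i + 1)) ℂ}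
    {dF : Fin r → ℕ} (hdF : ∀ i, 1 ≤ dF i) (hs : ∀ i, SmF (F i))
    (hh : ∀ i, (F i).IsHomogeneous (dF i)) {z : Fin R → K}
    {M : Fin R → ℕ} (hM : ∀ j, 0 < M j) {a : Fin R → Fin r → ℕ}
    (hz : ∀ j, z j ^ M j = ∏ i, (aeval (x i) (F i) / x i 0 ^ dF i) ^ a j i)
    (hdiv : ∀ j i, M j ∣ a j i * dF i)
    (hgen : IntermediateField.adjoin ℂ (Set.range (uu e x) ∪ Set.range z) = ⊤) :
    ∃ Θ : Nc e dF K R, Θ.C.M = M ∧ Θ.C.a = a := by
  classical
  choose q c hq hc hqc using fun i => exists_sh (hh i) (smF_ne (hs i))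
  obtain ⟨x', hx'⟩ : ∃ x' : ∀ i, Fin (n i + 1) → K, x' = fun i => shx (q i) (x i) := ⟨_, rfl⟩
  obtain ⟨F', hF'⟩ : ∃ F' : ∀ i, MvPolynomial (Fin (n i + 1)) ℂ,
    F' = fun i => shF (q i) (c i) (F i) := ⟨_, rfl⟩
  have hhF' : ∀ i, (F' i).IsHomogeneous (dF i) := fun i => by
    rw [hF']
    exact shF_hom _ _ (hh i)
  have hsF' : ∀ i, SmF (F' i) := fun i => by
    rw [hF']
    exact shF_smooth (hq i) (hc i) (hs i)
  have hF3 : ∀ i, coeff (Finsupp.single (Fin.last (n i)) (dF i)) (F' i) = 1 := fun i => by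
    rw [hF']
    exact hqc i
  have hxx' : ∀ i j, x i j = x' i j + algebraMap ℂ K (q i j) * x' i (Fin.last (n i)) := by
    intro i j
    rw [hx']
    dsimp only
    rw [shx_last (hq i)]
    unfold shx
    ring
  have hev : ∀ i, aeval (x' i) (F' i) = algebraMap ℂ K (c i) * aeval (x i) (F i) := fun i => by
    rw [hx', hF']
    exact aeval_shF (hq i) _ _ _
  have hx'0 : ∀ i, x' i 0 ≠ 0 := by
    intro i h0
    rw [hx'] at h0
    obtain ⟨b, hb⟩ : ∃ b : Fin (n i), b.succ = Fin.last (n i) :=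
      ⟨⟨n i - 1, by have := hn i; omega⟩, by
        apply Fin.ext
        have := hn i
        simp only [Fin.val_succ, Fin.val_last]
        omega⟩
    have h1 : aeval (uu e x) (1 - MvPolynomial.C (q i 0) * X (e ⟨i, b⟩)) = 0 := by
      rw [map_sub, map_one, map_mul, aeval_C, aeval_X]
      have h2 : uu e x (e ⟨i, b⟩) = x i (Fin.last (n i)) / x i 0 := by
        change aff x (e.symm (e ⟨i, b⟩)) = _
        rw [e.symm_apply_apply, ← hb]
        rfl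
      rw [h2]
      have h3 : x i 0 - algebraMap ℂ K (q i 0) * x i (Fin.last (n i)) = 0 := h0
      have h4 := hx0 i
      field_simp
      linear_combination h3
    have h2 := (injective_iff_map_eq_zero _).1 hbas.1 _ h1
    have h3 := congrArg (eval (0 : Fin (N' + 1) → ℂ)) h2
    simp at h3
  obtain ⟨ρ, hρ⟩ : ∃ ρ : Fin r → K, ρ = fun i => x i 0 / x' i 0 := ⟨_, rfl⟩
  have hρ0 : ∀ i, ρ i ≠ 0 := fun i => by
    rw [hρ]
    exact div_ne_zero (hx0 i) (hx'0 i)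
  -- the ratios in an intermediate field
  have hkey : ∀ L : IntermediateField ℂ K, (∀ b, uu e x' b ∈ L) → ∀ i j,
      x i j / x' i 0 ∈ L := by
    intro L hL i j
    have h1 : ∀ j, x' i j / x' i 0 ∈ L := by
      intro j
      refine Fin.cases ?_ (fun l => ?_) j
      · rw [div_self (hx'0 i)]
        exact L.one_mem
      · have h2 := hL (e ⟨i, l⟩)
        have h3 : uu e x' (e ⟨i, l⟩) = x' i l.succ / x' i 0 := by
          change aff x' (e.symm (e ⟨i, l⟩)) = _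
          rw [e.symm_apply_apply]
          rfl
        rwa [h3] at h2
    have h2 : x i j / x' i 0 = x' i j / x' i 0 +
        algebraMap ℂ K (q i j) * (x' i (Fin.last (n i)) / x' i 0) := by
      rw [hxx' i j]
      ring
    rw [h2]
    exact L.add_mem (h1 j) (L.mul_mem (L.algebraMap_mem _) (h1 _))
  have hkey2 : ∀ L : IntermediateField ℂ K, (∀ b, uu e x' b ∈ L) → ∀ b, uu e x b ∈ L := by
    intro L hL b
    have h1 : uu e x b = (x (e.symm b).1 (e.symm b).2.succ / x' (e.symm b).1 0) /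
        (x (e.symm b).1 0 / x' (e.symm b).1 0) := by
      rw [div_div_div_cancel_right₀ (hx'0 _)]
      rfl
    rw [h1]
    exact L.div_mem (hkey L hL _ _) (hkey L hL _ _)
  have hbas' : IsTranscendenceBasis ℂ (uu e x') := by
    refine basis_of_le hbas ?_
    rw [IntermediateField.adjoin_le_iff]
    rintro _ ⟨b, rfl⟩
    refine hkey2 _ (fun b' => ?_) b
    exact IntermediateField.subset_adjoin ℂ _ (Set.mem_range_self b')
  -- the constants
  have hκ : ∀ j, ∃ κ : ℂ, κ ^ M j = ∏ i, c i ^ a j i := fun j =>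
    IsAlgClosed.exists_pow_nat_eq _ (hM j)
  choose κ hκ using hκ
  have hκ0 : ∀ j, κ j ≠ 0 := by
    intro j h0
    have h1 := hκ j
    rw [h0, zero_pow (hM j).ne'] at h1
    exact (Finset.prod_ne_zero_iff.2 fun i _ => pow_ne_zero _ (hc i)) h1.symm
  obtain ⟨s, hs'⟩ : ∃ s : Fin R → K, s = fun j => algebraMap ℂ K (κ j) *
    ∏ i, ρ i ^ (a j i * dF i / M j) := ⟨_, rfl⟩
  have hs0 : ∀ j, s j ≠ 0 := fun j => by
    rw [hs']
    exact mul_ne_zero (by rw [Ne, map_eq_zero]; exact hκ0 j)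
      (Finset.prod_ne_zero_iff.2 fun i _ => pow_ne_zero _ (hρ0 i))
  have hsM : ∀ j, s j ^ M j = ∏ i, (algebraMap ℂ K (c i) * ρ i ^ dF i) ^ a j i := by
    intro j
    rw [hs']
    dsimp only
    rw [mul_pow, ← map_pow, hκ, map_prod, ← Finset.prod_pow, ← Finset.prod_mul_distrib]
    refine Finset.prod_congr rfl fun i _ => ?_
    rw [map_pow, ← pow_mul, Nat.div_mul_cancel (hdiv j i), mul_pow, ← pow_mul, mul_comm (dF i)]
  obtain ⟨x2, hx2⟩ : ∃ x2 : ∀ i, Fin (n i + 1) → K, x2 = fun i l => (x' i 0)⁻¹ * x' i l := ⟨_, rfl⟩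
  have hx20 : ∀ i, x2 i 0 = 1 := fun i => by
    rw [hx2]
    exact inv_mul_cancel₀ (hx'0 i)
  have huu : uu e x2 = uu e x' := by
    rw [hx2]
    exact uu_scale e x' fun i => inv_ne_zero (hx'0 i)
  refine ⟨⟨x2, hx20, by rw [huu]; exact hbas', F', hn, hdF, hhF', hsF', hF3,
    ⟨uu e x2, by rw [huu]; exact hbas', fun j => z j * s j, M, hM, a, fun j => ?_, hdiv, ?_⟩, rfl⟩,
    rfl, rfl⟩
  · rw [huu, mul_pow, hz, hsM, ← Finset.prod_mul_distrib]
    refine Finset.prod_congr rfl fun i _ => ?_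
    have h1 : aeval (uu e x') ((hblk e hn hdF hhF' hF3).F i) =
        aeval (x' i) (F' i) / x' i 0 ^ dF i := aeval_dh e hx'0 (hhF' i)
    rw [h1, hev, ← mul_pow, hρ]
    congr 1
    have h2 := hx0 i
    have h3 := hx'0 i
    dsimp only
    rw [div_pow]
    field_simp
  · rw [huu, eq_top_iff, ← hgen, IntermediateField.adjoin_le_iff]
    obtain ⟨L, hL⟩ : ∃ L, L = IntermediateField.adjoin ℂ (Set.range (uu e x') ∪
      Set.range fun j => z j * s j) := ⟨_, rfl⟩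
    rw [← hL]
    have hu : ∀ b, uu e x' b ∈ L := fun b => by
      rw [hL]
      exact IntermediateField.subset_adjoin ℂ _ (Or.inl ⟨b, rfl⟩)
    rintro _ (⟨b, rfl⟩ | ⟨j, rfl⟩)
    · exact hkey2 L hu b
    · have h1 : z j * s j ∈ L := by
        rw [hL]
        exact IntermediateField.subset_adjoin ℂ _ (Or.inr ⟨j, rfl⟩)
      have h2 : s j ∈ L := by
        rw [hs']
        refine L.mul_mem (L.algebraMap_mem _) (L.prod_mem fun i _ => ?_)
        have h3 : ρ i ∈ L := by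
          rw [hρ]
          exact hkey L hu i 0
        exact pow_mem h3 _
      have h3 := L.div_mem h1 h2
      rwa [mul_div_cancel_right₀ _ (hs0 j)] at h3

namespace Nc

variable {e} {dF : Fin r → ℕ} (Θ : Nc e dF K R)

/-- the blocks -/
noncomputable abbrev Bl : Blk ℂ (N' + 1) r := hblk e Θ.hn Θ.hdF Θ.hh Θ.hF3

theorem x_ne (i : Fin r) (j : Fin (n i + 1)) : Θ.x i j ≠ 0 := by
  refine Fin.cases ?_ (fun l => ?_) j
  · rw [Θ.hx0]
    exact one_ne_zero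
  · have h1 := Θ.hbas.1.ne_zero (e ⟨i, l⟩)
    have h2 : uu e Θ.x (e ⟨i, l⟩) = Θ.x i l.succ := by
      change aff Θ.x (e.symm (e ⟨i, l⟩)) = _
      rw [e.symm_apply_apply]
      change Θ.x i l.succ / Θ.x i 0 = _
      rw [Θ.hx0, div_one]
    rwa [h2] at h1

theorem Fx (t : Fin r) : aeval Θ.C.Z ((hblk e Θ.hn Θ.hdF Θ.hh Θ.hF3).F t) =
    aeval (Θ.x t) (Θ.F t) := by
  rw [Θ.hZ]
  have h1 : aeval (uu e Θ.x) ((hblk e Θ.hn Θ.hdF Θ.hh Θ.hF3).F t) =
      aeval (Θ.x t) (Θ.F t) / Θ.x t 0 ^ dF t := aeval_dh e (fun i => Θ.x_ne i 0) (Θ.hh t)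
  rw [h1, Θ.hx0, one_pow, div_one]

theorem Fx_ne (t : Fin r) : aeval (Θ.x t) (Θ.F t) ≠ 0 := by
  rw [← Θ.Fx]
  exact Θ.C.F_ne t

/-- the data of a place -/
structure Dt (P : Place ℂ K) (α : Fin r → ℤ) (v : Fin r → ℕ) (j : ∀ i, Fin (n i + 1)) : Prop where
  ha1 : ∀ i l, α i ≤ P.ord (Θ.x i l)
  ha2 : ∀ i, P.ord (Θ.x i (j i)) = α i
  hv : ∀ i, P.ord (aeval (Θ.x i) (Θ.F i)) = dF i * α i + v i

theorem exists_dt (P : Place ℂ K) : ∃ α v j, Θ.Dt P α v j ∧ ∀ i, α i ≤ 0 := by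
  classical
  have hmin : ∀ i, ∃ j : Fin (n i + 1), ∀ l, P.ord (Θ.x i j) ≤ P.ord (Θ.x i l) := by
    intro i
    obtain ⟨j, -, hj⟩ := Finset.exists_min_image Finset.univ (fun l => P.ord (Θ.x i l))
      ⟨(0 : Fin (n i + 1)), Finset.mem_univ _⟩
    exact ⟨j, fun l => hj l (Finset.mem_univ l)⟩
  choose j hj using hmin
  obtain ⟨α, hα⟩ : ∃ α : Fin r → ℤ, α = fun i => P.ord (Θ.x i (j i)) := ⟨_, rfl⟩
  have hv : ∀ i, ∃ v : ℕ, P.ord (aeval (Θ.x i) (Θ.F i)) = dF i * α i + v := by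
    intro i
    have h1 : aeval (Θ.x i) (Θ.F i) = Θ.x i (j i) ^ dF i *
        aeval (fun l => Θ.x i l / Θ.x i (j i)) (Θ.F i) := by
      rw [← aeval_smul_form (Θ.hh i)]
      congr 2
      funext l
      rw [mul_div_cancel₀ _ (Θ.x_ne i _)]
    have h2 : aeval (fun l => Θ.x i l / Θ.x i (j i)) (Θ.F i) ≠ 0 := by
      intro h0
      rw [h0, mul_zero] at h1
      exact Θ.Fx_ne i h1
    have h3 : P.Reg (aeval (fun l => Θ.x i l / Θ.x i (j i)) (Θ.F i)) := by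
      refine reg_aeval (fun l => Or.inr ?_) _
      rw [P.ord_div (Θ.x_ne i l) (Θ.x_ne i _)]
      linarith [hj i l]
    have h4 := h3.resolve_left h2
    refine ⟨(P.ord (aeval (fun l => Θ.x i l / Θ.x i (j i)) (Θ.F i))).toNat, ?_⟩
    rw [Int.toNat_of_nonneg h4, h1, P.ord_mul (pow_ne_zero _ (Θ.x_ne i _)) h2, P.ord_pow, hα]
  choose v hv using hv
  refine ⟨α, v, j, ⟨fun i l => by rw [hα]; exact hj i l, fun i => by rw [hα], hv⟩, fun i => ?_⟩
  rw [hα]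
  have h1 := hj i 0
  rwa [Θ.hx0, P.ord_one] at h1

variable {Θ}

theorem Dt.adm {P : Place ℂ K} {α : Fin r → ℤ} {v : Fin r → ℕ} {j : ∀ i, Fin (n i + 1)}
    (h : Θ.Dt P α v j) (hv0 : v ≠ 0) : Adm Θ.C.M Θ.C.a v := by
  refine ⟨hv0, fun c => ?_⟩
  have h1 := congrArg P.ord (Θ.C.hz c)
  rw [P.ord_pow, ord_prod' P Finset.univ _ fun i _ => pow_ne_zero _ (Θ.C.F_ne i)] at h1
  have h2 : ∀ i, P.ord (aeval Θ.C.Z ((hblk e Θ.hn Θ.hdF Θ.hh Θ.hF3).F i) ^ Θ.C.a c i) =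
      ((Θ.C.a c i * dF i : ℕ) : ℤ) * α i + ((Θ.C.a c i * v i : ℕ) : ℤ) := by
    intro i
    rw [P.ord_pow, Θ.Fx, h.hv]
    push_cast
    ring
  rw [Finset.sum_congr rfl fun i _ => h2 i, Finset.sum_add_distrib] at h1
  have h3 : (Θ.C.M c : ℤ) ∣ ∑ i, ((Θ.C.a c i * dF i : ℕ) : ℤ) * α i :=
    Finset.dvd_sum fun i _ => Dvd.dvd.mul_right (by exact_mod_cast Θ.C.hdiv c i) _
  have h4 : (Θ.C.M c : ℤ) ∣ ∑ i, ((Θ.C.a c i * v i : ℕ) : ℤ) := by
    have h5 : ∑ i, ((Θ.C.a c i * v i : ℕ) : ℤ) = Θ.C.M c * P.ord (Θ.C.z c) -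
        ∑ i, ((Θ.C.a c i * dF i : ℕ) : ℤ) * α i := by
      rw [h1]
      ring
    rw [h5]
    exact dvd_sub (dvd_mul_right _ _) h3
  exact_mod_cast h4

end Nc

end Pool.Agent.H172.EG
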