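import Pool.Agent.H172.EG.LPg
import Pool.Agent.Y169.CH.Kod

/-!
The lattice points of the multiples of the polytope.
-/

set_option autoImplicit false
set_option linter.overlappingInstances false
set_option linter.unusedSectionVars false
set_option maxHeartbeats 400000

open Pool.Agent.TH152.AC Pool.Agent.Y169.TH Pool.Agent.H172.EF
open Pool.Agent.Y169.CH (Adm)

namespace Pool.Agent.H172.EG

variable {r R : ℕ} {M : Fin R → ℕ} {a : Fin R → Fin r → ℕ} {n dF : Fin r → ℕ}

/-- the reduced admissible vectors -/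
def RedQ (M : Fin R → ℕ) (a : Fin R → Fin r → ℕ) (L : ℕ) : Type :=
  {v : Fin r → Fin (L + 1) // Adm M a fun k => (v k : ℕ)}

noncomputable instance (L : ℕ) : Fintype (RedQ M a L) := by
  classical
  exact inferInstanceAs (Fintype {v : Fin r → Fin (L + 1) // Adm M a fun k => (v k : ℕ)})

/-- the vector -/
def RedQ.v {L : ℕ} (s : RedQ M a L) (k : Fin r) : ℕ := (s.1 k : ℕ)

theorem RedQ.le {L : ℕ} (s : RedQ M a L) (k : Fin r) : s.v k ≤ L := Nat.lt_succ_iff.1 (s.1 k).2

theorem RedQ.adm {L : ℕ} (s : RedQ M a L) : Adm M a s.v := s.2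

theorem exists_redQ {L : ℕ} (hL : 0 < L) (hM : ∀ j, M j ∣ L) {v : Fin r → ℕ} (hv : Adm M a v) :
    ∃ s : RedQ M a L, ∀ k, s.v k ≤ v k := by
  classical
  obtain ⟨v', hv'⟩ : ∃ v' : Fin r → ℕ, v' = fun k => if v k = 0 then 0 else (v k - 1) % L + 1 :=
    ⟨_, rfl⟩
  have h1 : ∀ k, v' k ≤ L := by
    intro k
    rw [hv']
    dsimp only
    split_ifs
    · exact Nat.zero_le _
    · exact Nat.mod_lt _ hL
  have h2 : ∀ k, v' k ≤ v k := by
    intro k
    rw [hv']
    dsimp only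
    split_ifs with h
    · exact Nat.zero_le _
    · have := Nat.mod_le (v k - 1) L
      omega
  have h3 : ∀ k, ∃ c, v k = v' k + L * c := by
    intro k
    rw [hv']
    dsimp only
    split_ifs with h
    · exact ⟨0, by rw [h]; simp⟩
    · refine ⟨(v k - 1) / L, ?_⟩
      have := Nat.mod_add_div (v k - 1) L
      omega
  choose c hc using h3
  have hadm : Adm M a v' := by
    obtain ⟨h4, h5⟩ := hv
    refine ⟨?_, fun j => ?_⟩
    · intro h0
      apply h4
      funext k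
      have h6 := congrFun h0 k
      rw [hv', Pi.zero_apply] at h6
      dsimp only at h6
      rw [Pi.zero_apply]
      by_contra hne
      rw [if_neg hne] at h6
      simp at h6
    · have h6 := h5 j
      have h7 : ∑ k, a j k * v k = ∑ k, a j k * v' k + L * ∑ k, a j k * c k := by
        rw [Finset.mul_sum, ← Finset.sum_add_distrib]
        refine Finset.sum_congr rfl fun k _ => ?_
        rw [hc k]
        ring
      rw [h7] at h6
      exact (Nat.dvd_add_left (dvd_mul_of_dvd_left (hM j) _)).1 h6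
  exact ⟨⟨fun k => ⟨v' k, Nat.lt_succ_of_le (h1 k)⟩, hadm⟩, h2⟩

theorem admQ_unit {L : ℕ} (hL : 0 < L) (hM : ∀ j, M j ∣ L) (k : Fin r) :
    Adm M a fun i => if i = k then L else 0 := by
  classical
  refine ⟨?_, fun j => ?_⟩
  · intro h0
    have h2 := congrFun h0 k
    rw [Pi.zero_apply] at h2
    simp only [if_true] at h2
    omega
  · refine Finset.dvd_sum fun i _ => ?_
    dsimp only
    split_ifs
    · exact dvd_mul_of_dvd_right (hM j) _
    · rw [mul_zero]
      exact dvd_zero _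

theorem exists_unit_redQ {L : ℕ} (hL : 0 < L) (hM : ∀ j, M j ∣ L) (k : Fin r) :
    ∃ s : RedQ M a L, ∀ i, s.v i = if i = k then L else 0 := by
  classical
  refine ⟨⟨fun i => if i = k then Fin.last _ else 0, ?_⟩, fun i => ?_⟩
  · have h1 : (fun i => (((if i = k then Fin.last L else 0 : Fin (L + 1)) : ℕ))) =
        fun i => if i = k then L else 0 := by
      funext i
      split_ifs <;> rfl
    change Adm M a (fun i => (((if i = k then Fin.last L else 0 : Fin (L + 1)) : ℕ)))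
    rw [h1]
    exact admQ_unit hL hM k
  · unfold RedQ.v
    dsimp only
    split_ifs <;> rfl

/-- the rows -/
def rowz (dF : Fin r → ℕ) {L : ℕ} : Fin r ⊕ RedQ M a L → Fin r → ℤ :=
  Sum.elim (fun i k => if k = i then -(dF i : ℤ) else 0) fun s k => (s.v k : ℤ)

/-- the right hand sides -/
def rhsz (n dF : Fin r → ℕ) {L : ℕ} : Fin r ⊕ RedQ M a L → ℤ :=
  Sum.elim (fun i => -((dF i : ℤ) - n i - 1)) fun _ => 1

theorem row_inl {L : ℕ} (i : Fin r) (y : Fin r → ℚ) :
    dotL (fun k => ((rowz (M := M) (a := a) (L := L) dF (Sum.inl i) k : ℤ) : ℚ)) y =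
      -(dF i * y i) := by
  classical
  rw [dotL_apply, Finset.sum_eq_single i]
  · simp [rowz]
  · intro k _ hk
    simp [rowz, hk]
  · intro h
    exact absurd (Finset.mem_univ _) h

theorem row_inr {L : ℕ} (s : RedQ M a L) (y : Fin r → ℚ) :
    dotL (fun k => ((rowz (M := M) (a := a) (L := L) dF (Sum.inr s) k : ℤ) : ℚ)) y =
      ∑ k, (s.v k : ℚ) * y k := by
  rw [dotL_apply]
  exact Finset.sum_congr rfl fun k _ => by simp [rowz]

theorem mem_Pg {L : ℕ} {y : Fin r → ℚ} :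
    y ∈ Pg (fun s k => ((rowz (M := M) (a := a) (L := L) dF s k : ℤ) : ℚ))
      (fun s => ((rhsz (M := M) (a := a) (L := L) n dF s : ℤ) : ℚ)) ↔
    (∀ i, (dF i : ℚ) * y i ≤ dF i - n i - 1) ∧ ∀ s : RedQ M a L, 1 ≤ ∑ k, (s.v k : ℚ) * y k := by
  constructor
  · intro h
    refine ⟨fun i => ?_, fun s => ?_⟩
    · have h1 := h (Sum.inl i)
      rw [row_inl] at h1
      simp only [rhsz, Sum.elim_inl] at h1
      push_cast at h1
      linarith
    · have h1 := h (Sum.inr s)
      rw [row_inr] at h1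
      simpa [rhsz] using h1
  · rintro ⟨h1, h2⟩ (i | s)
    · rw [row_inl]
      simp only [rhsz, Sum.elim_inl]
      push_cast
      linarith [h1 i]
    · rw [row_inr]
      simpa [rhsz] using h2 s

theorem pg_nonneg {L : ℕ} (hL : 0 < L) (hM : ∀ j, M j ∣ L) {y : Fin r → ℚ}
    (h : ∀ s : RedQ M a L, 0 ≤ ∑ k, (s.v k : ℚ) * y k) (k : Fin r) : 0 ≤ y k := by
  obtain ⟨s, hs⟩ := exists_unit_redQ (a := a) hL hM k
  have h1 := h s
  rw [Finset.sum_eq_single k] at h1
  · rw [hs, if_pos rfl] at h1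
    have h5 : (0 : ℚ) < L := by exact_mod_cast hL
    exact nonneg_of_mul_nonneg_right h1 h5
  · intro i _ hi
    rw [hs, if_neg hi, Nat.cast_zero, zero_mul]
  · intro hk
    exact absurd (Finset.mem_univ _) hk

theorem rec_zero {L : ℕ} (hL : 0 < L) (hM : ∀ j, M j ∣ L) (hd : ∀ i, 1 ≤ dF i)
    (z : Fin r → ℚ) (hz : ∀ s, 0 ≤
      dotL (fun k => ((rowz (M := M) (a := a) (L := L) dF s k : ℤ) : ℚ)) z) : z = 0 := by
  have h1 : ∀ k, 0 ≤ z k := pg_nonneg (a := a) hL hM fun s => by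
    have h2 := hz (Sum.inr s)
    rwa [row_inr] at h2
  funext k
  have h2 := hz (Sum.inl k)
  rw [row_inl] at h2
  have h3 : (0 : ℚ) < dF k := by exact_mod_cast hd k
  rw [Pi.zero_apply]
  have h4 := h1 k
  by_contra hne
  have h5 : 0 < z k := lt_of_le_of_ne h4 (Ne.symm hne)
  nlinarith [mul_pos h3 h5]

/-- the lattice points -/
def LatQ (n : Fin r → ℕ) (dF : Fin r → ℕ) (M : Fin R → ℕ) (a : Fin R → Fin r → ℕ) (D : ℕ)
    (w : Fin r → ℕ) : Prop :=
  (∀ i, D * (n i + 1) + dF i * w i ≤ D * dF i) ∧ ∀ v, Adm M a v → D ≤ ∑ i, v i * w i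

/-- **The lattice points compute the minima.** -/
theorem exists_latQ {L B D : ℕ} (hL : 0 < L) (hM : ∀ j, M j ∣ L) (hd : ∀ k, 1 ≤ dF k)
    (hB1 : ∀ k, dF k ≤ B) (hB2 : L ≤ B)
    (hD : ∀ i, 1 ≤ i → i ≤ r.factorial * B ^ r → i ∣ D)
    (hD0 : 0 < D) (u : Fin r → ℚ) {y : Fin r → ℚ}
    (hy : y ∈ Pg (fun s k => ((rowz (M := M) (a := a) (L := L) dF s k : ℤ) : ℚ))
      (fun s => ((rhsz (M := M) (a := a) (L := L) n dF s : ℤ) : ℚ))) :
    ∃ w : Fin r → ℕ, LatQ n dF M a D w ∧ dotL u (fun k => (w k : ℚ)) ≤ D * dotL u y := by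
  classical
  have hDq : (0 : ℚ) < D := by exact_mod_cast hD0
  obtain ⟨p, hp, hpu, hact⟩ := exists_vertex_g (rec_zero (dF := dF) hL hM hd) u hy
  obtain ⟨w, hw⟩ := vertex_int_g (B := B) (lz := rowz (M := M) (a := a) (L := L) dF)
    (fun s k => by
      rcases s with i | s
      · simp only [rowz, Sum.elim_inl]
        split_ifs
        · rw [abs_neg, Nat.abs_cast]
          exact_mod_cast hB1 i
        · rw [abs_zero]
          positivity
      · simp only [rowz, Sum.elim_inr]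
        rw [Nat.abs_cast]
        exact_mod_cast (s.le k).trans hB2) hact hD
  obtain ⟨hp1, hp2⟩ := mem_Pg.1 hp
  have hp0 : ∀ k, 0 ≤ p k := pg_nonneg (a := a) hL hM fun s => by linarith [hp2 s]
  have hw0 : ∀ k, 0 ≤ w k := by
    intro k
    have h1 := mul_nonneg hDq.le (hp0 k)
    rw [← hw k] at h1
    exact_mod_cast h1
  obtain ⟨w', hw'⟩ : ∃ w' : Fin r → ℕ, w' = fun k => (w k).toNat := ⟨_, rfl⟩
  have hww : ∀ k, (w' k : ℚ) = D * p k := by
    intro k
    rw [← hw k, hw']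
    have h1 : (((w k).toNat : ℕ) : ℤ) = w k := Int.toNat_of_nonneg (hw0 k)
    exact_mod_cast h1
  refine ⟨w', ⟨fun i => ?_, fun v hv => ?_⟩, ?_⟩
  · have h1 := mul_le_mul_of_nonneg_left (hp1 i) hDq.le
    have h2 : ((D * (n i + 1) + dF i * w' i : ℕ) : ℚ) ≤ ((D * dF i : ℕ) : ℚ) := by
      push_cast
      rw [hww]
      nlinarith
    exact_mod_cast h2
  · obtain ⟨s, hs⟩ := exists_redQ hL hM hv
    have h1 := mul_le_mul_of_nonneg_left (hp2 s) hDq.le
    rw [mul_one, Finset.mul_sum] at h1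
    have h2 : (D : ℚ) ≤ ((∑ k, v k * w' k : ℕ) : ℚ) := by
      push_cast
      refine h1.trans (Finset.sum_le_sum fun k _ => ?_)
      rw [hww]
      have h3 : (s.v k : ℚ) ≤ v k := by exact_mod_cast hs k
      have h4 := mul_nonneg hDq.le (hp0 k)
      nlinarith
    exact_mod_cast h2
  · have h1 : (fun k => (w' k : ℚ)) = (D : ℚ) • p := by
      funext k
      rw [hww]
      rfl
    rw [h1, map_smul, smul_eq_mul]
    exact mul_le_mul_of_nonneg_left hpu hDq.le

/-- the polytope is not empty -/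
theorem pg_ne {L : ℕ} (hd : ∀ i, 1 ≤ dF i)
    (hpos : ∀ v, Adm M a v → 1 ≤ ∑ i, (((dF i : ℚ) - n i - 1) / dF i) * v i) :
    (fun i => ((dF i : ℚ) - n i - 1) / dF i) ∈
      Pg (fun s k => ((rowz (M := M) (a := a) (L := L) dF s k : ℤ) : ℚ))
      (fun s => ((rhsz (M := M) (a := a) (L := L) n dF s : ℤ) : ℚ)) := by
  rw [mem_Pg]
  refine ⟨fun i => ?_, fun s => ?_⟩
  · have h3 : (dF i : ℚ) ≠ 0 := by
      have := hd i
      positivity
    rw [mul_div_cancel₀ _ h3]
  · refine (hpos _ s.adm).trans (le_of_eq (Finset.sum_congr rfl fun k _ => ?_))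
    ring

end Pool.Agent.H172.EG
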