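import Pool.Agent.H172.EG.Nrm
import Pool.Agent.H172.EG.VerG

/-!
The sections given by lattice points, and the orders of the monomials.
-/

set_option autoImplicit false
set_option linter.overlappingInstances false
set_option linter.unusedSectionVars false
set_option maxHeartbeats 1000000

open FF MvPolynomial Pool.Agent.W603.LV Pool.Agent.W602.GT Pool.Agent.W602.Cov
open Pool.Agent.TH756.PR Pool.Agent.TH122.AB Pool.Agent.TH756.PN Pool.Agent.Y169.CH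
open Pool.Agent.H172.EF (asec_iff asec_pow)

namespace Pool.Agent.H172.EG

section

variable {k : Type} [Field k] {d r : ℕ} (Φ : Blk k d r)

theorem sum_wbd (a : Fin d →₀ ℕ) (α : Fin r → ℤ) :
    ∑ t, (Φ.wbd a t : ℤ) * α t = ∑ b, (Φ.wg b * a b : ℤ) * α (Φ.τ b) := by
  classical
  have h1 : ∀ t, (Φ.wbd a t : ℤ) * α t =
      ∑ b, if Φ.τ b = t then (Φ.wg b * a b : ℤ) * α t else 0 := by
    intro t
    unfold Blk.wbd
    push_cast
    rw [Finset.sum_mul]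
    refine Finset.sum_congr rfl fun b _ => ?_
    split_ifs
    · rfl
    · rw [zero_mul]
  rw [Finset.sum_congr rfl fun t _ => h1 t, Finset.sum_comm]
  refine Finset.sum_congr rfl fun b _ => ?_
  rw [Finset.sum_ite_eq Finset.univ (Φ.τ b), if_pos (Finset.mem_univ _)]

theorem sum_piv (a : Fin d →₀ ℕ) (v : Fin r → ℕ) :
    ∑ t, (a (Φ.c t) : ℤ) * v t =
      ∑ b, if b = Φ.c (Φ.τ b) then (a b : ℤ) * v (Φ.τ b) else 0 := by
  classical
  refine Finset.sum_of_injOn Φ.c (fun a _ b _ hab => Φ.c_inj hab) (fun a _ => by simp) ?_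
    fun t _ => ?_
  · intro b _ hb
    have hbn : b ≠ Φ.c (Φ.τ b) := by
      intro hb'
      apply hb
      exact ⟨Φ.τ b, by simp, hb'.symm⟩
    rw [if_neg hbn]
  · rw [Φ.hc, if_pos rfl]

end

variable {r R : ℕ} {n : Fin r → ℕ} {K : Type} [Field K] [Algebra ℂ K] {N' : ℕ}
  {e : ((i : Fin r) × Fin (n i)) ≃ Fin (N' + 1)} {dF : Fin r → ℕ} (Θ : Nc e dF K R)

namespace Nc

theorem Y_ne (b : Fin (N' + 1)) : Θ.C.Y b ≠ 0 := Θ.C.bas_Y.1.ne_zero b

/-- the orders of the new coordinates -/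
theorem ord_Y {P : Place ℂ K} {α : Fin r → ℤ} {v : Fin r → ℕ} {j : ∀ i, Fin (n i + 1)}
    (h : Θ.Dt P α v j) (b : Fin (N' + 1)) :
    (Θ.Bl.wg b : ℤ) * α (Θ.Bl.τ b) + (if b = Θ.Bl.c (Θ.Bl.τ b) then (v (Θ.Bl.τ b) : ℤ) else 0) ≤
      P.ord (Θ.C.Y b) := by
  classical
  by_cases hb : b = Θ.Bl.c (Θ.Bl.τ b)
  · obtain ⟨t, ht⟩ : ∃ t, t = Θ.Bl.τ b := ⟨_, rfl⟩
    have h1 : Θ.C.Y b = aeval (Θ.x t) (Θ.F t) := by
      rw [ht, hb, Θ.Bl.hc, ← Θ.Fx]
      exact Θ.C.Y_c _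
    rw [if_pos hb, h1, h.hv, ← ht]
    have h2 : Θ.Bl.wg b = dF t := by
      unfold Blk.wg
      rw [if_pos hb, ← ht]
      rfl
    rw [h2]
  · rw [if_neg hb, add_zero]
    have h1 : Θ.C.Y b = Θ.C.Z b := Θ.C.Y_n hb
    have h2 : Θ.Bl.wg b = 1 := by
      unfold Blk.wg
      rw [if_neg hb]
    rw [h1, h2, Nat.cast_one, one_mul, Θ.hZ]
    change _ ≤ P.ord (Θ.x (e.symm b).1 (e.symm b).2.succ / Θ.x (e.symm b).1 0)
    rw [Θ.hx0, div_one]
    exact h.ha1 _ _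

/-- the order of a monomial -/
theorem ge_mono {P : Place ℂ K} {α : Fin r → ℤ} {v : Fin r → ℕ} {j : ∀ i, Fin (n i + 1)}
    (h : Θ.Dt P α v j) (a : Fin (N' + 1) →₀ ℕ) :
    Ge P (∑ t, (Θ.Bl.wbd a t : ℤ) * α t + ∑ t, (a (Θ.Bl.c t) : ℤ) * v t)
      (∏ b, Θ.C.Y b ^ a b) := by
  classical
  right
  rw [ord_prod' P Finset.univ _ fun b _ => pow_ne_zero _ (Θ.Y_ne b), sum_wbd, sum_piv,
    ← Finset.sum_add_distrib]
  refine Finset.sum_le_sum fun b _ => ?_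
  rw [P.ord_pow]
  have h1 := Θ.ord_Y h b
  have h2 := mul_le_mul_of_nonneg_left h1 (Int.natCast_nonneg (a b))
  refine le_trans (le_of_eq ?_) h2
  split_ifs <;> ring

/-- the order of a polynomial -/
theorem ge_poly {P : Place ℂ K} {α : Fin r → ℤ} {v : Fin r → ℕ} {j : ∀ i, Fin (n i + 1)}
    (h : Θ.Dt P α v j) {μ : ℤ} {R0 : MvPolynomial (Fin (N' + 1)) ℂ}
    (hR : ∀ a ∈ R0.support, μ ≤ ∑ t, (Θ.Bl.wbd a t : ℤ) * α t + ∑ t, (a (Θ.Bl.c t) : ℤ) * v t) :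
    Ge P μ (aeval Θ.C.Y R0) := by
  classical
  rw [aeval_def, eval₂_eq']
  refine Ge.sum _ _ fun a ha => ?_
  have h2 := (Ge.const (P := P) (coeff a R0)).mul (Θ.ge_mono h a)
  refine h2.mono ?_
  rw [zero_add]
  exact hR a ha

/-- the section -/
noncomputable def sct (D : ℕ) (w : Fin r → ℕ) (j : ∀ i, Fin (n i + 1))
    (Dv : Fin (N' + 1) → Derivation ℂ K K) : K :=
  om e Dv Θ.x ^ D * ∏ i, (Θ.x i (j i) ^ (D * dF i - (D * (n i + 1) + dF i * w i)) *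
    aeval (Θ.x i) (Θ.F i) ^ ((w i : ℤ) - D))

theorem sct_ne {D : ℕ} {w : Fin r → ℕ} {j : ∀ i, Fin (n i + 1)}
    {D0 : Fin (N' + 1) → Derivation ℂ K K} (hom : om e D0 Θ.x = 1) : Θ.sct D w j D0 ≠ 0 := by
  unfold sct
  rw [hom, one_pow, one_mul]
  exact Finset.prod_ne_zero_iff.2 fun i _ =>
    mul_ne_zero (pow_ne_zero _ (Θ.x_ne i _)) (zpow_ne_zero _ (Θ.Fx_ne i))

/-- the order of the factor -/
theorem fac_ord {D : ℕ} {w : Fin r → ℕ} (hw : LatQ n dF Θ.C.M Θ.C.a D w) (j : ∀ i, Fin (n i + 1))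
    (P : Place ℂ K) :
    P.ord (∏ i, (Θ.x i (j i) ^ (D * dF i - (D * (n i + 1) + dF i * w i)) *
      aeval (Θ.x i) (Θ.F i) ^ ((w i : ℤ) - D))) =
    ∑ i, (((D : ℤ) * dF i - (D * (n i + 1) + dF i * w i)) * P.ord (Θ.x i (j i)) +
      ((w i : ℤ) - D) * P.ord (aeval (Θ.x i) (Θ.F i))) := by
  classical
  rw [ord_prod' P Finset.univ _ fun i _ =>
    mul_ne_zero (pow_ne_zero _ (Θ.x_ne i _)) (zpow_ne_zero _ (Θ.Fx_ne i))]
  refine Finset.sum_congr rfl fun i _ => ?_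
  rw [P.ord_mul (pow_ne_zero _ (Θ.x_ne i _)) (zpow_ne_zero _ (Θ.Fx_ne i)), P.ord_pow,
    P.ord_zpow]
  have h1 := hw.1 i
  have h2 : ((D * dF i - (D * (n i + 1) + dF i * w i) : ℕ) : ℤ) =
      (D : ℤ) * dF i - (D * (n i + 1) + dF i * w i) := by
    rw [Nat.cast_sub h1]
    push_cast
    ring
  rw [h2]

/-- the order of a section -/
theorem sct_ord {D : ℕ} {w : Fin r → ℕ} (hw : LatQ n dF Θ.C.M Θ.C.a D w)
    {D0 : Fin (N' + 1) → Derivation ℂ K K} (hom : om e D0 Θ.x = 1)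
    {P : Place ℂ K} {α : Fin r → ℤ} {v : Fin r → ℕ} {j : ∀ i, Fin (n i + 1)}
    (h : Θ.Dt P α v j) :
    P.ord (Θ.sct D w j D0) =
      - (D * ∑ i, ((n i : ℤ) + 1) * α i) + ∑ i, (v i : ℤ) * w i - D * ∑ i, (v i : ℤ) := by
  classical
  unfold sct
  rw [hom, one_pow, one_mul, Θ.fac_ord hw, Finset.mul_sum, Finset.mul_sum,
    ← Finset.sum_neg_distrib, ← Finset.sum_add_distrib, ← Finset.sum_sub_distrib]
  refine Finset.sum_congr rfl fun i _ => ?_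
  rw [h.ha2, h.hv]
  ring

/-- the sections are regular -/
theorem sct_sec {D : ℕ} {w : Fin r → ℕ} (hw : LatQ n dF Θ.C.M Θ.C.a D w)
    (j : ∀ i, Fin (n i + 1)) : ASec (N' + 1) {1} D 1 (Θ.sct D w j) := by
  classical
  rw [asec_iff]
  refine ⟨fun A Dv => ?_, fun P _ Dv hDv => ?_⟩
  · unfold sct
    rw [om_lin, mul_pow]
    ring
  · obtain ⟨α, v, j', h, -⟩ := Θ.exists_dt P
    have h1 := om_ord e Θ.hn P Dv hDv Θ.x_ne Θ.hbas Θ.hs Θ.hh Θ.Fx_ne α h.ha1 j' h.ha2 v h.hv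
    have h2 := (h1.pow D).mul (ge_ord P (∏ i, (Θ.x i (j i) ^
      (D * dF i - (D * (n i + 1) + dF i * w i)) * aeval (Θ.x i) (Θ.F i) ^ ((w i : ℤ) - D))))
    refine h2.mono ?_
    rw [Θ.fac_ord hw]
    have h3 : - (D * ∑ i, ((n i : ℤ) + 1) * α i) + ∑ i, (v i : ℤ) * w i - D * ∑ i, (v i : ℤ) ≤
        ∑ i, (((D : ℤ) * dF i - (D * (n i + 1) + dF i * w i)) * P.ord (Θ.x i (j i)) +
          ((w i : ℤ) - D) * P.ord (aeval (Θ.x i) (Θ.F i))) := by
      rw [Finset.mul_sum, Finset.mul_sum, ← Finset.sum_neg_distrib, ← Finset.sum_add_distrib,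
        ← Finset.sum_sub_distrib]
      refine Finset.sum_le_sum fun i _ => ?_
      rw [h.hv]
      have h4 := h.ha1 i (j i)
      have h5 : (0 : ℤ) ≤ (D : ℤ) * dF i - (D * (n i + 1) + dF i * w i) := by
        have h6 := hw.1 i
        have h7 : ((D * (n i + 1) + dF i * w i : ℕ) : ℤ) ≤ ((D * dF i : ℕ) : ℤ) := by
          exact_mod_cast h6
        push_cast at h7
        linarith
      have h6 := mul_le_mul_of_nonneg_left h4 h5
      linarith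
    by_cases hv : v = 0
    · rw [if_pos hv]
      rw [hv] at h3 ⊢
      simp only [Pi.zero_apply, Nat.cast_zero, zero_mul, Finset.sum_const_zero, mul_zero, sub_zero,
        add_zero] at h3 ⊢
      push_cast
      linarith
    · rw [if_neg hv]
      have h5 := hw.2 v (h.adm hv)
      have h6 : (D : ℤ) ≤ ∑ k, (v k : ℤ) * w k := by exact_mod_cast h5
      push_cast
      nlinarith

/-- the canonical form in the dual frame -/
theorem om_one {D0 : Fin (N' + 1) → Derivation ℂ K K}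
    (hD : ∀ i j, D0 i (Θ.C.Z j) = if i = j then 1 else 0) : om e D0 Θ.x = 1 := by
  classical
  unfold om
  have h1 : (Matrix.of fun a b : Fin (N' + 1) => D0 a (uu e Θ.x b)) = 1 := by
    ext a b
    rw [Matrix.of_apply, ← Θ.hZ, hD, Matrix.one_apply]
  rw [h1, Matrix.det_one, mul_one]
  exact Finset.prod_eq_one fun i _ => by rw [Θ.hx0, one_pow]

end Nc

end Pool.Agent.H172.EG
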