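import Pool.Agent.H172.EG.SctG
import Pool.Agent.H172.EF.Top

/-!
The positive part of the canonical divisor for abelian covers of products of projective spaces
branched along pullbacks of smooth hypersurfaces of the factors.
-/

set_option autoImplicit false
set_option linter.overlappingInstances false
set_option linter.unusedSectionVars false
set_option maxHeartbeats 1000000

open FF MvPolynomial Pool.Agent.W603.LV Pool.Agent.W602.GT Pool.Agent.W602.Cov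
open Pool.Agent.TH756.PR Pool.Agent.TH122.AB Pool.Agent.TH756.PN Pool.Agent.Y169.CH
open Pool.Agent.TH152.AC
open Pool.Agent.Y169.TH (dotL dotL_apply)
open Pool.Agent.H172.EF (asec_iff asec_pow)

namespace Pool.Agent.H172.EG

variable {r R : ℕ} {n : Fin r → ℕ} {K : Type} [Field K] [Algebra ℂ K] {N' : ℕ}
  {e : ((i : Fin r) × Fin (n i)) ≃ Fin (N' + 1)} {dF : Fin r → ℕ} (Θ : Nc e dF K R)

namespace Nc

/-- **The bound for the orders.** -/
theorem ord_bound (P : Place ℂ K) (S : Finset K) {L B D : ℕ} (hL : 0 < L)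
    (hML : ∀ j, Θ.C.M j ∣ L) (hB1 : ∀ k, dF k ≤ B) (hB2 : L ≤ B)
    (hDd : ∀ i, 1 ≤ i → i ≤ r.factorial * B ^ r → i ∣ D) (hD0 : 0 < D)
    {D0 : Fin (N' + 1) → Derivation ℂ K K} (hD : ∀ i j, D0 i (Θ.C.Z j) = if i = j then 1 else 0)
    {α : Fin r → ℤ} {v : Fin r → ℕ} {j : ∀ i, Fin (n i + 1)} (hα : ∀ i, α i ≤ 0)
    (hdat : Θ.Dt P α v j) {w : Fin r → ℕ} (hw : LatQ n dF Θ.C.M Θ.C.a D w)
    (hmin : ∀ w', LatQ n dF Θ.C.M Θ.C.a D w' → ∑ k, v k * w k ≤ ∑ k, v k * w' k) :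
    ∃ c : ℕ, ∀ (m : ℕ) (ω : (Fin (N' + 1) → Derivation ℂ K K) → K), Sec (N' + 1) S m ω →
      ω D0 ≠ 0 → (m : ℤ) * P.ord (Θ.sct D w j D0) ≤ D * P.ord (ω D0) + c := by
  classical
  have hDq : (0 : ℚ) < D := by exact_mod_cast hD0
  have hLq : (0 : ℚ) < L := by exact_mod_cast hL
  have hom := Θ.om_one hD
  choose T hT using fun s : RedQ Θ.C.M Θ.C.a L => Θ.C.exists_dir s.2.1 s.2.2
  obtain ⟨δ', β, Q, c, hQ, hmem⟩ := sec_mem Θ.C (hblk_smo e Θ.hn Θ.hdF Θ.hh Θ.hF3 Θ.hs) T S hD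
  obtain ⟨V, hV⟩ : ∃ V : ℤ, V = ∑ k, (v k : ℤ) * w k := ⟨_, rfl⟩
  -- the linear programming bound
  obtain ⟨A0, hA0, hlp⟩ := lpg_lower (rec_zero (M := Θ.C.M) (a := Θ.C.a) (dF := dF) hL hML Θ.hdF)
    (b := fun s => ((rhsz (M := Θ.C.M) (a := Θ.C.a) (L := L) n dF s : ℤ) : ℚ))
    (u := fun k => (v k : ℚ)) (ρ := (V : ℚ) / D)
    (fun y hy => by
      obtain ⟨w', hw', hle⟩ := exists_latQ hL hML Θ.hdF hB1 hB2 hDd hD0
        (fun k => (v k : ℚ)) hy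
      rw [div_le_iff₀ hDq, mul_comm]
      refine le_trans ?_ hle
      have h1 := hmin w' hw'
      rw [dotL_apply, hV]
      exact_mod_cast h1)
  -- the constants
  obtain ⟨cβ, hcβ⟩ : ∃ cβ : ℕ, ∀ i, Ge P (-(cβ : ℤ)) (β i) := by
    refine ⟨∑ i, (P.ord (β i)).natAbs, fun i => ?_⟩
    right
    have h1 : (P.ord (β i)).natAbs ≤ ∑ i, (P.ord (β i)).natAbs :=
      Finset.single_le_sum (f := fun i => (P.ord (β i)).natAbs) (fun _ _ => Nat.zero_le _)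
        (Finset.mem_univ i)
    omega
  obtain ⟨A1, hA1⟩ := exists_nat_ge ((D : ℚ) * (A0 * (2 * c)))
  obtain ⟨αs, hαs⟩ : ∃ αs : ℤ, αs = ∑ i, α i := ⟨_, rfl⟩
  have hαs0 : αs ≤ 0 := by
    rw [hαs]
    exact Finset.sum_nonpos fun i _ => hα i
  obtain ⟨c3, hc3⟩ : ∃ c3 : ℕ, c3 = cβ + 2 * (P.ord Q).natAbs + 2 * c * αs.natAbs := ⟨_, rfl⟩
  refine ⟨A1 + D * c3, fun m ω hω hω0 => ?_⟩
  obtain ⟨R0, hR1, hR2⟩ := hmem m 1 ω (by rw [Cvr.pw_one]; exact hω)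
  obtain ⟨μ, hμ⟩ : ∃ μ : ℤ, μ = ⌈(V : ℚ) / D * m - A0 * (2 * c)⌉ := ⟨_, rfl⟩
  obtain ⟨X, hX⟩ : ∃ X : ℤ, X = ∑ t, (((dF t : ℤ) - n t - 1) * m + 2 * c) * α t := ⟨_, rfl⟩
  have hsupp : ∀ i, ∀ a ∈ (R0 i).support, X + μ ≤
      ∑ t, (Θ.Bl.wbd a t : ℤ) * α t + ∑ t, (a (Θ.Bl.c t) : ℤ) * v t := by
    intro i a ha
    obtain ⟨h1, h2⟩ := hR2 i a ha
    have h1' : ∀ t, (Θ.Bl.wbd a t : ℤ) ≤ ((dF t : ℤ) - n t - 1) * m + 2 * c := by
      intro t
      have h3 := h1 t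
      rw [hblk_n, hblk_D] at h3
      refine h3.trans (le_of_eq ?_)
      push_cast
      ring
    refine add_le_add ?_ ?_
    · rw [hX]
      refine Finset.sum_le_sum fun t _ => ?_
      exact mul_le_mul_of_nonpos_right (h1' t) (hα t)
    · rw [hμ, Int.ceil_le]
      have h3 := hlp (fun t => (a (Θ.Bl.c t) : ℚ)) m (2 * c) (by positivity) (by positivity)
        (fun s => ?_)
      · rw [dotL_apply] at h3
        refine h3.trans (le_of_eq ?_)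
        push_cast
        exact Finset.sum_congr rfl fun t _ => by ring
      · rcases s with t | s
        · rw [row_inl]
          simp only [rhsz, Sum.elim_inl]
          have h4 : ((dF t * a (Θ.Bl.c t) : ℕ) : ℤ) ≤ ((dF t : ℤ) - n t - 1) * m + 2 * c := by
            refine le_trans ?_ (h1' t)
            have h5 : Θ.Bl.wbd a t = Θ.Bl.D t * a (Θ.Bl.c t) + _ := Cvr.wbd_c a t
            rw [h5]
            exact_mod_cast Nat.le_add_right _ _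
          have h5 : (((dF t * a (Θ.Bl.c t) : ℕ) : ℤ) : ℚ) ≤
            ((((dF t : ℤ) - n t - 1) * m + 2 * c : ℤ) : ℚ) := Int.cast_le.2 h4
          push_cast at h5 ⊢
          linarith
        · rw [row_inr]
          simp only [rhsz, Sum.elim_inr]
          have h4 := h2 s
          rw [hT] at h4
          have h5 : (((m : ℤ) - c * ((1 : ℕ) + 1) : ℤ) : ℚ) ≤
            ((∑ t, (s.v t : ℤ) * a (Θ.Bl.c t) : ℤ) : ℚ) := Int.cast_le.2 h4
          push_cast at h5 ⊢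
          linarith
  -- the order of the right hand side
  have hrhs : Ge P (X + μ - cβ) (∑ i, aeval Θ.C.Y (R0 i) * β i) := by
    refine Ge.sum _ _ fun i _ => ?_
    refine ((Θ.ge_poly hdat (hsupp i)).mul (hcβ i)).mono (le_of_eq ?_)
    ring
  rw [← hR1] at hrhs
  have hlhs := hrhs.resolve_left (mul_ne_zero (mul_ne_zero hω0 (Θ.C.Lam_ne m))
    (pow_ne_zero _ hQ))
  rw [P.ord_mul (mul_ne_zero hω0 (Θ.C.Lam_ne m)) (pow_ne_zero _ hQ),
    P.ord_mul hω0 (Θ.C.Lam_ne m), P.ord_pow, Θ.C.ord_Lam] at hlhs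
  have hsumF : ∑ t, P.ord (aeval Θ.C.Z ((hblk e Θ.hn Θ.hdF Θ.hh Θ.hF3).F t)) =
      ∑ t, (dF t : ℤ) * α t + ∑ t, (v t : ℤ) := by
    rw [← Finset.sum_add_distrib]
    exact Finset.sum_congr rfl fun t _ => by rw [Θ.Fx, hdat.hv]
  rw [hsumF] at hlhs
  have hXe : X = m * ∑ t, (dF t : ℤ) * α t - m * ∑ i, ((n i : ℤ) + 1) * α i + 2 * c * αs := by
    rw [hX, hαs, Finset.mul_sum, Finset.mul_sum, Finset.mul_sum, ← Finset.sum_sub_distrib,
      ← Finset.sum_add_distrib]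
    exact Finset.sum_congr rfl fun t _ => by ring
  rw [Θ.sct_ord hw hom hdat, ← hV]
  -- the estimate for `μ`
  have hμ1 : (m : ℤ) * V - A1 ≤ D * μ := by
    have h1 : (V : ℚ) / D * m - A0 * (2 * c) ≤ μ := by
      rw [hμ]
      exact Int.le_ceil _
    have h2 := mul_le_mul_of_nonneg_left h1 hDq.le
    have h3 : (D : ℚ) * ((V : ℚ) / D * m - A0 * (2 * c)) =
        m * V - D * (A0 * (2 * c)) := by
      field_simp
    rw [h3] at h2
    have h4 : ((m : ℚ) * V - A1) ≤ D * μ := by linarith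
    exact_mod_cast h4
  have hQa : -((P.ord Q).natAbs : ℤ) ≤ P.ord Q ∧ P.ord Q ≤ (P.ord Q).natAbs := by omega
  have hαa : ((αs.natAbs : ℕ) : ℤ) = -αs := by omega
  have hfin : μ - c3 - m * ∑ i, ((n i : ℤ) + 1) * α i - m * ∑ k, (v k : ℤ) ≤ P.ord (ω D0) := by
    rw [hc3]
    push_cast
    have h1 : |αs| = -αs := abs_of_nonpos hαs0
    have h2 : |P.ord Q| = ((P.ord Q).natAbs : ℤ) := Int.abs_eq_natAbs _
    rw [h1, h2]
    push_cast at hlhs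
    rw [hXe] at hlhs
    have h3 : (0 : ℤ) ≤ c := by positivity
    nlinarith [hQa.1, hQa.2, mul_nonneg h3 (neg_nonneg.2 hαs0)]
  have hDz : (0 : ℤ) ≤ D := by positivity
  have h1 := mul_le_mul_of_nonneg_left hfin hDz
  push_cast
  nlinarith

end Nc

/-- the bound without a constant -/
theorem ord_exact {N : ℕ} {P : Place ℂ K} {D : ℕ} {s0 : K} {D0 : Fin N → Derivation ℂ K K} {c : ℕ}
    (h : ∀ (m : ℕ) (ω : (Fin N → Derivation ℂ K K) → K),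
      Sec N {1} m ω → ω D0 ≠ 0 → (m : ℤ) * P.ord s0 ≤ D * P.ord (ω D0) + c)
    {m : ℕ} {ω : (Fin N → Derivation ℂ K K) → K} (hω : ASec N {1} m 1 ω)
    (hω0 : ω D0 ≠ 0) : (m : ℤ) * P.ord s0 ≤ D * P.ord (ω D0) := by
  have h1 := h ((c + 1) * m) (fun Dv => ω Dv ^ (c + 1)) (asec_one (asec_pow hω (c + 1)))
    (pow_ne_zero _ hω0)
  rw [P.ord_pow] at h1
  push_cast at h1
  by_contra hcon
  push Not at hcon
  obtain ⟨t, ht⟩ : ∃ t : ℤ, t = (m : ℤ) * P.ord s0 - D * P.ord (ω D0) := ⟨_, rfl⟩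
  have h2 : 1 ≤ t := by omega
  have h3 : ((c : ℤ) + 1) * t ≤ c := by
    rw [ht]
    linarith
  have h4 : ((c : ℤ) + 1) * 1 ≤ (c + 1) * t := mul_le_mul_of_nonneg_left h2 (by positivity)
  linarith

/-- the frames -/
theorem exists_mat {N : ℕ} {Z : Fin N → K} (hZ : IsTranscendenceBasis ℂ Z)
    {D0 : Fin N → Derivation ℂ K K}
    (hD : ∀ i j, D0 i (Z j) = if i = j then 1 else 0) (Dv : Fin N → Derivation ℂ K K) :
    ∃ A : Matrix (Fin N) (Fin N) K, Dv = fun i => ∑ j, A i j • D0 j := by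
  refine ⟨Matrix.of fun i b => Dv i (Z b), ?_⟩
  funext i
  apply der_ext' hZ
  intro j
  rw [sum_der, Finset.sum_eq_single j]
  · rw [hD, if_pos rfl, mul_one]
    rfl
  · intro b _ hb
    rw [hD, if_neg hb, mul_zero]
  · intro hj
    exact absurd (Finset.mem_univ _) hj

/-- the change of the frame -/
theorem frame {N : ℕ} {Z : Fin N → K} (hZ : IsTranscendenceBasis ℂ Z)
    {D0 : Fin N → Derivation ℂ K K}
    (hD : ∀ i j, D0 i (Z j) = if i = j then 1 else 0) {P : Place ℂ K} {D m : ℕ} (hm : 1 ≤ m)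
    {s ω : (Fin N → Derivation ℂ K K) → K} (hs : IsPluri D s) (hω : IsPluri m ω)
    (hs0 : s D0 ≠ 0) {c : ℤ}
    (h : ω D0 ≠ 0 → (m : ℤ) * P.ord (s D0) ≤ D * P.ord (ω D0) + c)
    {Dv : Fin N → Derivation ℂ K K} (hDv : ω Dv ≠ 0) :
    s Dv ≠ 0 ∧ (m : ℤ) * P.ord (s Dv) ≤ D * P.ord (ω Dv) + c := by
  obtain ⟨A, rfl⟩ := exists_mat hZ hD Dv
  rw [hω A D0] at hDv ⊢
  rw [hs A D0]
  have h1 : A.det ≠ 0 := by
    intro h0
    rw [h0, zero_pow (by omega), zero_mul] at hDv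
    exact hDv rfl
  have h2 : ω D0 ≠ 0 := right_ne_zero_of_mul hDv
  refine ⟨mul_ne_zero (pow_ne_zero _ h1) hs0, ?_⟩
  rw [P.ord_mul (pow_ne_zero _ h1) hs0, P.ord_mul (pow_ne_zero _ h1) h2, P.ord_pow, P.ord_pow]
  have h3 := h h2
  nlinarith

/-- **The positive part.** -/
theorem top (Θ : Nc e dF K R) {L B D : ℕ} (hL : 0 < L)
    (hML : ∀ j, Θ.C.M j ∣ L) (hB1 : ∀ k, dF k ≤ B) (hB2 : L ≤ B)
    (hDd : ∀ i, 1 ≤ i → i ≤ r.factorial * B ^ r → i ∣ D) (hD0 : 0 < D)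
    (hpos : ∀ v, Adm Θ.C.M Θ.C.a v → 1 ≤ ∑ i, (((dF i : ℚ) - n i - 1) / dF i) * v i) :
    ∃ (q : ℕ) (s : Fin q → (Fin (N' + 1) → Derivation ℂ K K) → K),
      (∀ b, ASec (N' + 1) {1} D 1 (s b)) ∧
      ∀ P : Place ℂ K, ∃ b,
        (∀ (m : ℕ) (ω : (Fin (N' + 1) → Derivation ℂ K K) → K), 1 ≤ m →
          ASec (N' + 1) {1} m 1 ω →
          ∀ Dv, ω Dv ≠ 0 → s b Dv ≠ 0 ∧ (m : ℤ) * P.ord (s b Dv) ≤ D * P.ord (ω Dv)) ∧
        ∀ S : Finset K, ∃ c : ℕ, ∀ (m : ℕ) (ω : (Fin (N' + 1) → Derivation ℂ K K) → K), 1 ≤ m →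
          ASec (N' + 1) S m 1 ω →
          ∀ Dv, ω Dv ≠ 0 → s b Dv ≠ 0 ∧ (m : ℤ) * P.ord (s b Dv) ≤ D * P.ord (ω Dv) + c := by
  classical
  obtain ⟨D0, hD00⟩ := exists_dual Θ.C.hZ
  have hD : ∀ i j, D0 i (Θ.C.Z j) = if i = j then 1 else 0 := by
    intro i j
    have h1 := congrFun (congrFun hD00 i) j
    rw [Matrix.of_apply, Matrix.one_apply] at h1
    exact h1
  have hom := Θ.om_one hD
  -- the finite set of the lattice points
  let W : Finset (Fin r → ℕ) :=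
    (Fintype.piFinset fun i : Fin r => Finset.range (D * dF i + 1)).filter
      fun w => LatQ n dF Θ.C.M Θ.C.a D w
  have hW : ∀ w, w ∈ W ↔ LatQ n dF Θ.C.M Θ.C.a D w := by
    intro w
    simp only [W, Finset.mem_filter, Fintype.mem_piFinset, Finset.mem_range]
    refine ⟨fun h => h.2, fun h => ⟨fun k => Nat.lt_succ_of_le ?_, h⟩⟩
    have h1 := h.1 k
    have h2 := Nat.le_mul_of_pos_left (w k) (Θ.hdF k)
    omega
  let I : Type := W × (∀ i, Fin (n i + 1))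
  let ε : Fin (Fintype.card I) ≃ I := (Fintype.equivFin I).symm
  refine ⟨Fintype.card I, fun b => Θ.sct D (ε b).1.1 (ε b).2,
    fun b => Θ.sct_sec ((hW _).1 (ε b).1.2) _, fun P => ?_⟩
  obtain ⟨α, v, j, hdat, hα⟩ := Θ.exists_dt P
  obtain ⟨w0, hw0, -⟩ := exists_latQ hL hML Θ.hdF hB1 hB2 hDd hD0 0
    (pg_ne (n := n) (L := L) Θ.hdF hpos)
  obtain ⟨w, hwW, hmin⟩ := Finset.exists_min_image W (fun w => ∑ k, v k * w k)
    ⟨w0, (hW _).2 hw0⟩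
  have hw := (hW _).1 hwW
  have hmin' : ∀ w', LatQ n dF Θ.C.M Θ.C.a D w' → ∑ k, v k * w k ≤ ∑ k, v k * w' k :=
    fun w' hw' => hmin w' ((hW _).2 hw')
  have key := fun S : Finset K => Θ.ord_bound P S hL hML hB1 hB2 hDd hD0 hD hα hdat hw hmin'
  have hee : ε (ε.symm (⟨w, hwW⟩, j)) = (⟨w, hwW⟩, j) := ε.apply_symm_apply _
  refine ⟨ε.symm (⟨w, hwW⟩, j), fun m ω hm hω Dv hDv => ?_, fun S => ?_⟩
  · simp only [hee]
    obtain ⟨c, hc⟩ := key {1}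
    have h1 := frame Θ.C.hZ hD (P := P) hm (Θ.sct_sec hw j).1 hω.1 (Θ.sct_ne hom) (c := 0)
      (fun h0 => by
        rw [add_zero]
        exact ord_exact hc hω h0) hDv
    rwa [add_zero] at h1
  · simp only [hee]
    obtain ⟨c, hc⟩ := key S
    refine ⟨c, fun m ω hm hω Dv hDv => ?_⟩
    exact frame Θ.C.hZ hD (P := P) hm (Θ.sct_sec hw j).1 hω.1 (Θ.sct_ne hom)
      (fun h0 => hc m ω (asec_one hω) h0) hDv

end Pool.Agent.H172.EG
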